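import Pool.Agent.Lib.MP_c8b0a1_an.Kernel

/-! Duality, Hoelder and Parseval. -/

namespace Pool.Agent.Lib.MP_c8b0a1_an.Four

open Finset

variable {F : Type} [Field F] [Fintype F] [DecidableEq F]
variable {V : Type} [AddCommGroup V] [Module F V] [Fintype V] [DecidableEq V]

theorem dual_holder {ι : Type} [Fintype ι] (a b : ι → ℝ) (ha : ∀ i, 0 ≤ a i)
    (hb : ∀ i, 0 ≤ b i) :
    (∑ i, a i * b i) ^ 4 ≤ (∑ i, a i ^ (4 / 3 : ℝ)) ^ 3 * ∑ i, b i ^ 4 := by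
  have hpq : Real.HolderConjugate (4 / 3) 4 :=
    (Real.holderConjugate_iff_eq_conjExponent (by norm_num)).2 (by norm_num)
  have h := Real.inner_le_Lp_mul_Lq_of_nonneg univ hpq (fun i _ => ha i) fun i _ => hb i
  have hA : 0 ≤ ∑ i, a i ^ (4 / 3 : ℝ) := sum_nonneg fun i _ => Real.rpow_nonneg (ha i) _
  have hB : 0 ≤ ∑ i, b i ^ (4 : ℝ) := sum_nonneg fun i _ => Real.rpow_nonneg (hb i) _
  refine (pow_le_pow_left₀ (sum_nonneg fun i _ => mul_nonneg (ha i) (hb i)) h 4).trans_eq ?_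
  rw [mul_pow, ← Real.rpow_natCast, ← Real.rpow_natCast, ← Real.rpow_mul hA, ← Real.rpow_mul hB,
    (by norm_num : (1 / (4 / 3) * (4 : ℕ) : ℝ) = (3 : ℕ)),
    (by norm_num : (1 / 4 * (4 : ℕ) : ℝ) = 1), Real.rpow_natCast, Real.rpow_one]
  congr 1
  exact sum_congr rfl fun i _ => Real.rpow_ofNat _ _

omit [DecidableEq F] in
theorem dual_four {ψ : AddChar F ℂ} {B : V →ₗ[F] V →ₗ[F] F} {N : ℝ} (hN : 0 ≤ N)
    (ho : ∀ x, ∑ ξ, ψ (B ξ x) = if x = 0 then (N : ℂ) else 0) (S : Finset V) (g : V → ℂ) :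
    ∑ x, ‖∑ ξ ∈ S, g ξ * ψ (-(B x ξ))‖ ^ 4 ≤ N * ∑ a ∈ S, ∑ b ∈ S, ∑ c ∈ S, ∑ d ∈ S,
      if a + b = c + d then ‖g a‖ * ‖g b‖ * ‖g c‖ * ‖g d‖ else 0 := by
  have h1 : ∀ x, ‖∑ ξ ∈ S, g ξ * ψ (-(B x ξ))‖ ^ 4 =
      ‖∑ p : S × S, g p.1 * g p.2 * ψ (-(B x (p.1 + p.2)))‖ ^ 2 := by
    intro x
    rw [(by norm_num : 4 = 2 * 2), pow_mul, sq ‖_‖, ← norm_mul, ← sum_coe_sort S, sum_mul_sum,
      Fintype.sum_prod_type]
    congr 2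
    refine sum_congr rfl fun a _ => sum_congr rfl fun b _ => ?_
    rw [map_add, neg_add, AddChar.map_add_eq_mul]
    ring
  have h2 := parseval ψ (fun (x m : V) => -(B x m)) (fun x m m' => by rw [map_sub]; ring) N
    (fun m => by simpa using ho (-m)) (fun p : S × S => g p.1 * g p.2)
    (fun p : S × S => (p.1 : V) + p.2)
  simp only [h1]
  rw [h2]
  refine mul_le_mul_of_nonneg_left ((fiber_sq_le _ _).trans_eq ?_) hN
  rw [En_eq]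
  simp only [Fintype.sum_prod_type, norm_mul, ← mul_assoc]
  rw [← sum_coe_sort S]
  refine sum_congr rfl fun a _ => ?_
  rw [← sum_coe_sort S]
  refine sum_congr rfl fun b _ => ?_
  rw [← sum_coe_sort S]
  refine sum_congr rfl fun c _ => ?_
  rw [← sum_coe_sort S]

/-- Choose `g ξ : ℂ` with `‖g ξ‖ = w ξ` and `g ξ * h ξ = w ξ * ‖h ξ‖`, `h ξ` the inner sum
(`Complex.exists_norm_mul_eq_self` or by hand). The sum is `∑ x, f x * E x` with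
`E x = ∑ ξ ∈ S, g ξ * ψ (-(B x ξ))`; Hoelder (`Real.inner_le_Lp_mul_Lq`, exponents `4/3` and `4`).
`‖E x‖ ^ 4 = ‖E x * E x‖ ^ 2`, and `E x * E x` is a sum over `ι = S × S` with
frequency `a + b`: use `parseval` (`β x m = -(B x m)`), `fiber_sq_le`, `En_eq` of
`Basic.lean`. -/
theorem dual {ψ : AddChar F ℂ} {B : V →ₗ[F] V →ₗ[F] F} {N : ℝ} (hN : 0 ≤ N)
    (ho : ∀ x, ∑ ξ, ψ (B ξ x) = if x = 0 then (N : ℂ) else 0) (S : Finset V) (f : V → ℂ)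
    (w : V → ℝ) (hw : ∀ x, 0 ≤ w x) :
    (∑ ξ ∈ S, w ξ * ‖∑ x, f x * ψ (-(B x ξ))‖) ^ 4 ≤ (∑ x, ‖f x‖ ^ (4 / 3 : ℝ)) ^ 3 *
      (N * ∑ a ∈ S, ∑ b ∈ S, ∑ c ∈ S, ∑ d ∈ S,
        if a + b = c + d then w a * w b * w c * w d else 0) := by
  choose u hu1 hu2 using fun ξ => Complex.exists_norm_eq_mul_self (∑ x, f x * ψ (-(B x ξ)))
  have hg : ∀ ξ, ‖(w ξ : ℂ) * u ξ‖ = w ξ := fun ξ => by
    rw [norm_mul, hu1, mul_one, Complex.norm_real, Real.norm_of_nonneg (hw ξ)]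
  have h4 := dual_four hN ho S fun ξ => (w ξ : ℂ) * u ξ
  simp only [hg] at h4
  have h0 : 0 ≤ ∑ ξ ∈ S, w ξ * ‖∑ x, f x * ψ (-(B x ξ))‖ :=
    sum_nonneg fun ξ _ => mul_nonneg (hw ξ) (norm_nonneg _)
  have h1 : ((∑ ξ ∈ S, w ξ * ‖∑ x, f x * ψ (-(B x ξ))‖ : ℝ) : ℂ) =
      ∑ x, f x * ∑ ξ ∈ S, (w ξ : ℂ) * u ξ * ψ (-(B x ξ)) := by
    simp only [Complex.ofReal_sum, Complex.ofReal_mul, hu2, mul_sum]
    rw [sum_comm]
    exact sum_congr rfl fun x _ => sum_congr rfl fun ξ _ => by ring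
  have h2 : ∑ ξ ∈ S, w ξ * ‖∑ x, f x * ψ (-(B x ξ))‖ ≤
      ∑ x, ‖f x‖ * ‖∑ ξ ∈ S, (w ξ : ℂ) * u ξ * ψ (-(B x ξ))‖ := by
    rw [← Real.norm_of_nonneg h0, ← Complex.norm_real, h1]
    exact (norm_sum_le _ _).trans_eq (sum_congr rfl fun x _ => norm_mul _ _)
  refine (pow_le_pow_left₀ h0 h2 4).trans
    ((dual_holder _ _ (fun _ => norm_nonneg _) fun _ => norm_nonneg _).trans ?_)
  exact mul_le_mul_of_nonneg_left h4
    (pow_nonneg (sum_nonneg fun x _ => Real.rpow_nonneg (norm_nonneg _) _) _)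

end Pool.Agent.Lib.MP_c8b0a1_an.Four
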