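import Mathlib

/-! Dyadic summation below a fixed height. -/

namespace Pool.Agent.Lib.MP_c8b0a1_an.Four

open Finset

theorem dyad_term (n : ℕ) {u v w τ : ℝ} (hτ : 0 < τ) (hu : 1 ≤ u) (hv : 1 ≤ v) (h1 : u ≤ w)
    (h2 : v ≤ w) : ((2 * u / τ) ^ 4) ^ (n + 1) * ((2 * v / τ) ^ 4) ^ (n + 2) *
      (τ / u * (τ / v) * (τ / w)) ^ (3 * n + 5) ≤
        2 ^ (8 * n + 12) * τ ^ (n + 3) * (u⁻¹ * v⁻¹) := by
  have u0 : 0 < u := one_pos.trans_le hu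
  have v0 : 0 < v := one_pos.trans_le hv
  have w0 : 0 < w := u0.trans_le h1
  have e : ((2 * u / τ) ^ 4) ^ (n + 1) * ((2 * v / τ) ^ 4) ^ (n + 2) *
      (τ / u * (τ / v) * (τ / w)) ^ (3 * n + 5) = 2 ^ (8 * n + 12) * τ ^ (n + 3) * (u⁻¹ * v⁻¹) *
        (u ^ n * v ^ (n + 4) / w ^ (3 * n + 5)) := by
    simp only [← pow_mul, mul_pow, div_pow]
    field_simp
    ring
  rw [e]
  refine mul_le_of_le_one_right (by positivity) ((div_le_one (by positivity)).2 ?_)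
  calc u ^ n * v ^ (n + 4) ≤ w ^ n * w ^ (n + 4) := by gcongr
    _ = w ^ (2 * n + 4) := by ring
    _ ≤ _ := pow_le_pow_right₀ (hu.trans h1) (by omega)

/-- Only points with `0 < y x ≤ τ` count. Give each the level `i` with
`τ / 2 ^ (i + 1) < y x ≤ τ / 2 ^ i` (`Nat.find`, or `exists_nat_pow_near_of_lt_one`); finitely many
levels, all `< J`. The level set `A i` has `#(A i) ≤ (((2 ^ (i + 1) / τ) ^ 4) ^ (n + 2)` by `h1`.
The pair of levels `(i, l)` gives at most `(τ ^ 3 / 2 ^ (i + l + max i l)) ^ (3 * n + 5)` times the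
bound `H`, which is at most `2 * 2 ^ (8 * n + 12) * κ * τ ^ (n + 3) / 2 ^ (i + l)` because
`(4 n + 4) i + (4 n + 8) l + i + l ≤ (3 n + 5) (i + l + max i l)` (and the same with `i, l`
swapped). Sum two geometric series (`sum_geometric_two_le`). -/
theorem dyad {G : Type} [DecidableEq G] (S : Finset G) (R : G → G → Prop) [DecidableRel R] (n : ℕ)
    {κ τ : ℝ} (hκ : 0 ≤ κ) (hτ : 0 < τ)
    (H : ∀ A ⊆ S, ∀ A' ⊆ S, ∀ α β : ℝ, 0 ≤ α → 0 ≤ β → (#A : ℝ) ≤ α ^ (n + 2) →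
      (#A' : ℝ) ≤ β ^ (n + 2) → (#{t ∈ A ×ˢ A' | R t.1 t.2} : ℝ) ≤
        κ * (α ^ (n + 1) * β ^ (n + 2) + α ^ (n + 2) * β ^ (n + 1)))
    (y : G → ℝ) (hy : ∀ x, 0 ≤ y x) (h1 : ∑ x ∈ S, y x ^ (4 * n + 8) ≤ 1) :
    ∑ a ∈ S, ∑ b ∈ S, (if R a b ∧ y a ≤ τ ∧ y b ≤ τ then
      (y a * y b * min (y a) (y b)) ^ (3 * n + 5) else 0) ≤ 2 ^ (8 * n + 15) * κ * τ ^ (n + 3) := by
  classical
  have hl : ∀ x, ∃ i : ℕ, 0 < y x → y x ≤ τ → τ / (2 * 2 ^ i) ≤ y x ∧ y x ≤ τ / 2 ^ i := by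
    intro x
    by_cases h : 0 < y x ∧ y x ≤ τ
    · obtain ⟨i, a1, a2⟩ := exists_nat_pow_near ((one_le_div h.1).2 h.2) one_lt_two
      refine ⟨i, fun _ _ => ⟨?_, ?_⟩⟩
      · rw [div_lt_iff₀ h.1, pow_succ] at a2
        rw [div_le_iff₀ (by positivity)]
        linarith
      · rw [le_div_iff₀ h.1] at a1
        rw [le_div_iff₀ (by positivity)]
        linarith
    · exact ⟨0, fun a b => (h ⟨a, b⟩).elim⟩
  choose L hL using hl
  obtain ⟨A, hA⟩ : ∃ A : ℕ → Finset G, A = fun i => {x ∈ S | 0 < y x ∧ y x ≤ τ ∧ L x = i} :=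
    ⟨_, rfl⟩
  have mA : ∀ i x, x ∈ A i ↔ x ∈ S ∧ 0 < y x ∧ y x ≤ τ ∧ L x = i := fun i x => by
    rw [hA, mem_filter]
  have sA : ∀ i, A i ⊆ S := fun i x h => ((mA i x).1 h).1
  have bA : ∀ i, ∀ x ∈ A i, τ / (2 * 2 ^ i) ≤ y x ∧ y x ≤ τ / 2 ^ i := fun i x h => by
    obtain ⟨-, a, b, rfl⟩ := (mA i x).1 h
    exact hL x a b
  have cA : ∀ i, (#(A i) : ℝ) ≤ ((2 * 2 ^ i / τ) ^ 4) ^ (n + 2) := fun i => by
    have a1 := card_nsmul_le_sum (A i) (fun x => y x ^ (4 * n + 8))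
      ((τ / (2 * 2 ^ i)) ^ (4 * n + 8)) fun x h => pow_le_pow_left₀ (by positivity) (bA i x h).1 _
    have a2 := (a1.trans (sum_le_sum_of_subset_of_nonneg (sA i)
      fun x _ _ => pow_nonneg (hy x) _)).trans h1
    rw [nsmul_eq_mul, ← le_div_iff₀ (by positivity), one_div, ← inv_pow, inv_div] at a2
    rw [← pow_mul]
    exact a2
  obtain ⟨J, hJ⟩ : ∃ J, ∀ x ∈ S, L x < J :=
    ⟨S.sup L + 1, fun x h => Nat.lt_succ_of_le (le_sup h)⟩
  obtain ⟨g, hg⟩ : ∃ g : G × G → ℝ,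
      g = fun t => (y t.1 * y t.2 * min (y t.1) (y t.2)) ^ (3 * n + 5) := ⟨_, rfl⟩
  have key : ∀ i l, ∑ t ∈ A i ×ˢ A l with R t.1 t.2, g t ≤
      2 * 2 ^ (8 * n + 12) * κ * τ ^ (n + 3) * ((1 / 2) ^ i * (1 / 2) ^ l) := fun i l => by
    have p1 : ∀ k : ℕ, (1 : ℝ) ≤ 2 ^ k := fun k => one_le_pow₀ one_le_two
    have p2 : (2 : ℝ) ^ i ≤ 2 ^ max i l := pow_le_pow_right₀ one_le_two (le_max_left _ _)
    have p3 : (2 : ℝ) ^ l ≤ 2 ^ max i l := pow_le_pow_right₀ one_le_two (le_max_right _ _)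
    have a1 := sum_le_card_nsmul {t ∈ A i ×ˢ A l | R t.1 t.2} g
      ((τ / 2 ^ i * (τ / 2 ^ l) * (τ / 2 ^ max i l)) ^ (3 * n + 5)) fun t h => by
        obtain ⟨b1, b2⟩ := mem_product.1 (mem_filter.1 h).1
        have b3 : min (y t.1) (y t.2) ≤ τ / 2 ^ max i l := by
          rcases max_choice i l with e | e <;> rw [e]
          exacts [(min_le_left _ _).trans (bA _ _ b1).2, (min_le_right _ _).trans (bA _ _ b2).2]
        have b4 := le_min (hy t.1) (hy t.2)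
        rw [hg]
        exact pow_le_pow_left₀ (mul_nonneg (mul_nonneg (hy _) (hy _)) b4)
          (mul_le_mul (mul_le_mul (bA _ _ b1).2 (bA _ _ b2).2 (hy _) (by positivity)) b3 b4
            (by positivity)) _
    have a2 := mul_le_mul_of_nonneg_right
      (H _ (sA i) _ (sA l) _ _ (by positivity) (by positivity) (cA i) (cA l))
      (show 0 ≤ (τ / 2 ^ i * (τ / 2 ^ l) * (τ / 2 ^ max i l)) ^ (3 * n + 5) by positivity)
    have a3 := mul_le_mul_of_nonneg_left (dyad_term n hτ (p1 i) (p1 l) p2 p3) hκ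
    have a4 := mul_le_mul_of_nonneg_left (dyad_term n hτ (p1 l) (p1 i) p3 p2) hκ
    rw [mul_comm (τ / 2 ^ l)] at a4
    rw [nsmul_eq_mul] at a1
    rw [one_div, inv_pow, inv_pow]
    linarith
  have g0 : ∀ t, 0 ≤ g t := fun t => by
    rw [hg]
    exact pow_nonneg (mul_nonneg (mul_nonneg (hy _) (hy _)) (le_min (hy _) (hy _))) _
  have e1 : ∑ a ∈ S, ∑ b ∈ S, (if R a b ∧ y a ≤ τ ∧ y b ≤ τ then
      (y a * y b * min (y a) (y b)) ^ (3 * n + 5) else 0) =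
      ∑ t ∈ S ×ˢ S with R t.1 t.2 ∧ (0 < y t.1 ∧ y t.1 ≤ τ) ∧ 0 < y t.2 ∧ y t.2 ≤ τ, g t := by
    rw [sum_filter, sum_product]
    refine sum_congr rfl fun a _ => sum_congr rfl fun b _ => ?_
    rcases (hy a).eq_or_lt with c | c
    · simp [← c]
    rcases (hy b).eq_or_lt with c' | c'
    · simp [← c']
    simp [hg, c, c']
  rw [e1, ← sum_fiberwise_of_maps_to (t := range J ×ˢ range J) (g := fun t => (L t.1, L t.2))
    fun t h => by
      obtain ⟨b1, b2⟩ := mem_product.1 (mem_filter.1 h).1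
      exact mem_product.2 ⟨mem_range.2 (hJ _ b1), mem_range.2 (hJ _ b2)⟩]
  refine (sum_le_sum fun p _ => (sum_le_sum_of_subset_of_nonneg (fun t h => ?_)
    fun t _ _ => g0 t).trans (key p.1 p.2)).trans ?_
  · obtain ⟨b1, rfl⟩ := mem_filter.1 h
    obtain ⟨b2, b3, b4, b5⟩ := mem_filter.1 b1
    obtain ⟨b6, b7⟩ := mem_product.1 b2
    exact mem_filter.2 ⟨mem_product.2 ⟨(mA _ _).2 ⟨b6, b4.1, b4.2, rfl⟩,
      (mA _ _).2 ⟨b7, b5.1, b5.2, rfl⟩⟩, b3⟩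
  · rw [← mul_sum, sum_product, ← sum_mul_sum]
    have a1 := sum_geometric_two_le J
    have a2 : (0 : ℝ) ≤ ∑ i ∈ range J, (1 / 2) ^ i := sum_nonneg fun _ _ => by positivity
    refine (mul_le_mul_of_nonneg_left (mul_le_mul a1 a1 a2 zero_le_two)
      (by positivity)).trans_eq ?_
    ring

end Pool.Agent.Lib.MP_c8b0a1_an.Four
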