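import Mathlib

/-! Many independent tuples in a set that is thin on flats. -/

namespace Pool.Agent.Lib.MP_c8b0a1_an.Four

open Finset Module

/-- Induction on `r`. For `u` in the family `T` of length `r ≤ k`, the span of the `u i - c` has
rank `≤ r ≤ k` (`finrank_range_le_card`), so at least `#D - Q` points `x ∈ D` have `x - c` outside
it; take all `Fin.cons x u` (`linearIndependent_fin_cons`, `Fin.cons_injective2`; the image of
`T.sigma ..` or a `biUnion`). -/
theorem indep {F V : Type} [Field F] [AddCommGroup V] [Module F V] [DecidableEq V] (D : Finset V)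
    (c : V) (k Q : ℕ)
    (h : ∀ W : Submodule F V, finrank F W ≤ k → ∀ Z ⊆ D, (∀ x ∈ Z, x - c ∈ W) → #Z ≤ Q)
    (r : ℕ) (hr : r ≤ k + 1) :
    ∃ T : Finset (Fin r → V),
      (∀ u ∈ T, (∀ i, u i ∈ D) ∧ LinearIndependent F fun i => u i - c) ∧ (#D - Q) ^ r ≤ #T := by
  classical
  induction r with
  | zero => exact ⟨{fun i => i.elim0}, fun u _ => ⟨fun i => i.elim0, linearIndependent_empty_type⟩,
      by simp⟩
  | succ r ih =>
    obtain ⟨T, hT, hc⟩ := ih (by omega)
    let G : (Fin r → V) → Finset V := fun u =>
      D.filter fun x => x - c ∉ Submodule.span F (Set.range fun i => u i - c)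
    have hG : ∀ u, #D - Q ≤ #(G u) := fun u => by
      have h1 := h (Submodule.span F (Set.range fun i => u i - c))
        ((finrank_range_le_card _).trans (by simpa using (by omega : r ≤ k)))
        (D.filter fun x => x - c ∈ Submodule.span F (Set.range fun i => u i - c))
        (filter_subset _ _) fun x hx => (mem_filter.1 hx).2
      have h2 := card_filter_add_card_filter_not (s := D)
        fun x => x - c ∈ Submodule.span F (Set.range fun i => u i - c)
      simp only [G]
      omega
    refine ⟨(T.sigma G).image fun p => (Fin.cons p.2 p.1 : Fin (r + 1) → V), fun v hv => ?_, ?_⟩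
    · obtain ⟨⟨u, x⟩, hp, rfl⟩ := mem_image.1 hv
      obtain ⟨hu, hx⟩ := mem_sigma.1 hp
      obtain ⟨hx1, hx2⟩ := mem_filter.1 hx
      refine ⟨fun i => Fin.cases hx1 (fun j => (hT u hu).1 j) i, ?_⟩
      have e : (fun i => (Fin.cons x u : Fin (r + 1) → V) i - c) =
          (Fin.cons (x - c) fun i => u i - c : Fin (r + 1) → V) := by
        funext i
        exact Fin.cases rfl (fun _ => rfl) i
      rw [e]
      exact linearIndependent_finCons.2 ⟨(hT u hu).2, hx2⟩
    · rw [card_image_of_injective _ fun p q hpq => ?_, card_sigma, pow_succ]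
      · calc (#D - Q) ^ r * (#D - Q) ≤ #T * (#D - Q) := Nat.mul_le_mul_right _ hc
          _ = ∑ _u ∈ T, (#D - Q) := by simp
          _ ≤ _ := sum_le_sum fun u _ => hG u
      · obtain ⟨h1, h2⟩ := Fin.cons_injective2 hpq
        obtain ⟨a, b⟩ := p
        obtain ⟨a', b'⟩ := q
        simp only at h1 h2
        subst h1 h2
        rfl

end Pool.Agent.Lib.MP_c8b0a1_an.Four
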