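import Mathlib

/-! The Kovari-Sos-Turan count with good tuples. -/

namespace Pool.Agent.Lib.MP_c8b0a1_an.Four

open Finset

/-- Let `deg b = #{a ∈ A | R a b}`. The count is `∑ b ∈ B, deg b` and
`deg b ≤ min Q #A + (deg b - Q)`; `min Q #A ≤ κ * α ^ m` (compare `κ` and `α`). Double counting of
pairs `(b, u)`, `u` in the family given by `h1` for `D = {a ∈ A | R a b}`, gives
`∑ b, (deg b - Q) ^ (m + 1) ≤ #A ^ (m + 1) * Q` (`Fintype.piFinset`, `h2`). The power mean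
inequality (`pow_sum_le_card_mul_sum_pow`) gives
`(∑ b, (deg b - Q)) ^ (m + 1) ≤ (κ * (α ^ (m + 1) * β ^ m)) ^ (m + 1)`. -/
theorem kst {V : Type} [DecidableEq V] (R : V → V → Prop) [DecidableRel R] (A B : Finset V)
    (m Q : ℕ) (I : (Fin (m + 1) → V) → Prop)
    (h1 : ∀ D ⊆ A, ∃ T : Finset (Fin (m + 1) → V),
      (∀ u ∈ T, (∀ i, u i ∈ D) ∧ I u) ∧ (#D - Q) ^ (m + 1) ≤ #T)
    (h2 : ∀ u, I u → ∀ Z ⊆ B, (∀ b ∈ Z, ∀ i, R (u i) b) → (∀ i, u i ∈ A) → #Z ≤ Q)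
    {α β κ : ℝ} (hα : 0 ≤ α) (hβ : 0 ≤ β) (hκ : 0 ≤ κ) (hA : (#A : ℝ) ≤ α ^ (m + 1))
    (hB : (#B : ℝ) ≤ β ^ (m + 1)) (hQ : (Q : ℝ) ≤ κ ^ (m + 1)) :
    (#{t ∈ A ×ˢ B | R t.1 t.2} : ℝ) ≤ κ * (α ^ m * β ^ (m + 1) + α ^ (m + 1) * β ^ m) := by
  classical
  choose T hT hT' using fun b : V => h1 {a ∈ A | R a b} (filter_subset _ _)
  have e0 : #{t ∈ A ×ˢ B | R t.1 t.2} = ∑ b ∈ B, #{a ∈ A | R a b} := by
    simp only [card_filter]
    rw [sum_product_right]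
  have e1 : ∀ b ∈ B, #{a ∈ A | R a b} ≤ min Q #A + (#{a ∈ A | R a b} - Q) := fun b _ => by
    have := card_filter_le A fun a => R a b
    omega
  have e2 : ((min Q #A : ℕ) : ℝ) ≤ κ * α ^ m := by
    rcases le_total κ α with h | h
    · refine le_trans (Nat.cast_le.2 (min_le_left _ _)) (hQ.trans ?_)
      rw [pow_succ']
      gcongr
    · refine le_trans (Nat.cast_le.2 (min_le_right _ _)) (hA.trans ?_)
      rw [pow_succ']
      gcongr
  have e3 : ∑ b ∈ B, (#{a ∈ A | R a b} - Q) ^ (m + 1) ≤ #A ^ (m + 1) * Q := by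
    have hs : ∀ b, T b ⊆ Fintype.piFinset fun _ => A := fun b u hu =>
      Fintype.mem_piFinset.2 fun i => (mem_filter.1 ((hT b u hu).1 i)).1
    calc _ ≤ ∑ b ∈ B, #{u ∈ Fintype.piFinset fun _ : Fin (m + 1) => A | u ∈ T b} :=
          sum_le_sum fun b _ => (hT' b).trans (card_le_card fun u hu => mem_filter.2 ⟨hs b hu, hu⟩)
      _ = ∑ u ∈ Fintype.piFinset fun _ : Fin (m + 1) => A, #{b ∈ B | u ∈ T b} := by
          simp only [card_filter]
          exact sum_comm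
      _ ≤ #(Fintype.piFinset fun _ : Fin (m + 1) => A) • Q := by
          refine sum_le_card_nsmul _ _ _ fun u hu => ?_
          rcases eq_empty_or_nonempty {b ∈ B | u ∈ T b} with h | ⟨b, hb⟩
          · simp [h]
          · exact h2 u (hT b u (mem_filter.1 hb).2).2 _ (filter_subset _ _)
              (fun c hc i => (mem_filter.1 ((hT c u (mem_filter.1 hc).2).1 i)).2)
              (Fintype.mem_piFinset.1 hu)
      _ = _ := by simp
  have e4 : ((∑ b ∈ B, (#{a ∈ A | R a b} - Q) : ℕ) : ℝ) ≤ κ * (α ^ (m + 1) * β ^ m) := by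
    refine le_of_pow_le_pow_left₀ (n := m + 1) (by omega) (by positivity) ?_
    have h3 := (pow_sum_le_card_mul_sum_pow (s := B) (f := fun b => #{a ∈ A | R a b} - Q)
      (fun _ _ => Nat.zero_le _) m).trans (Nat.mul_le_mul_left _ e3)
    have h4 : ((∑ b ∈ B, (#{a ∈ A | R a b} - Q) : ℕ) : ℝ) ^ (m + 1) ≤
        (#B : ℝ) ^ m * ((#A : ℝ) ^ (m + 1) * Q) := by exact_mod_cast h3
    refine h4.trans (le_trans (b := (β ^ (m + 1)) ^ m * ((α ^ (m + 1)) ^ (m + 1) * κ ^ (m + 1)))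
      (by gcongr) (le_of_eq (by ring)))
  have e5 : (#{t ∈ A ×ˢ B | R t.1 t.2} : ℝ) ≤
      #B * (min Q #A : ℕ) + (∑ b ∈ B, (#{a ∈ A | R a b} - Q) : ℕ) := by
    have h3 := sum_le_sum e1
    rw [sum_add_distrib, sum_const, smul_eq_mul, ← e0] at h3
    exact_mod_cast h3
  refine e5.trans (le_trans (add_le_add (mul_le_mul hB e2 (by positivity) (by positivity)) e4)
    (le_of_eq (by ring)))

end Pool.Agent.Lib.MP_c8b0a1_an.Four
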