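import Pool.Agent.Lib.MP_c8b0a1_an.Kernel

/-! A flat that is not inside the sphere meets it in few points. -/

namespace Pool.Agent.Lib.MP_c8b0a1_an.Four

open Finset Module

variable {F : Type} [Field F] [Fintype F] [DecidableEq F]
variable {V : Type} [AddCommGroup V] [Module F V] [Fintype V] [DecidableEq V]

lemma zeros_quad (a b e : F) (h : a ≠ 0 ∨ b ≠ 0) :
    #{t : F | a * t ^ 2 + b * t + e = 0} ≤ 2 := by
  have hp : (Polynomial.C a * Polynomial.X ^ 2 + Polynomial.C b * Polynomial.X
      + Polynomial.C e : Polynomial F) ≠ 0 := by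
    intro h0
    have h2 := congrArg (fun p => Polynomial.coeff p 2) h0
    have h1 := congrArg (fun p => Polynomial.coeff p 1) h0
    simp [Polynomial.coeff_C] at h1 h2
    rcases h with h | h
    exacts [h h2, h h1]
  refine le_trans (card_le_card (t := (Polynomial.C a * Polynomial.X ^ 2
    + Polynomial.C b * Polynomial.X + Polynomial.C e : Polynomial F).roots.toFinset) ?_) ?_
  · intro t ht
    rw [Multiset.mem_toFinset, Polynomial.mem_roots hp]
    simpa using (mem_filter.1 ht).2
  · exact (Multiset.toFinset_card_le _).trans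
      ((Polynomial.card_roots' _).trans Polynomial.natDegree_quadratic_le)

/-- Find `v ∈ W` such that for every `w ∈ W` at most two `t : F` have
`B (c + w + t • v) (c + w + t • v) = j`: if some `v ∈ W` has `B v v ≠ 0` the equation is quadratic
in `t` (complete the square, `card_sqrt_le`); otherwise `B` vanishes on `W × W` (polarise,
`two_ne hF`), the vector `v` of `h` has `B c v ≠ 0` and the equation is linear in `t`. Then map
`(x, t) ∈ Z × F` to `w = x - c - t • v ∈ W`: fibres have at most two elements
(`card_le_mul_card_image` or `card_le_mul_card_image_of_maps_to`), and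
`card W = q ^ finrank` (`Module.card_eq_pow_finrank`). -/
theorem zeros (hF : ringChar F ≠ 2) {j : F} {B : V →ₗ[F] V →ₗ[F] F} (hs : ∀ x y, B x y = B y x)
    {c : V} (hc : B c c = j) (W : Submodule F V) (h : ∃ w ∈ W, B (c + w) (c + w) ≠ j)
    (Z : Finset V) (hZ : ∀ x ∈ Z, B x x = j ∧ x - c ∈ W) :
    Fintype.card F * #Z ≤ 2 * Fintype.card F ^ finrank F W := by
  classical
  have h2 : (2 : F) ≠ 0 := two_ne hF
  obtain ⟨v, hv, hq⟩ : ∃ v ∈ W, ∀ w ∈ W, B v v ≠ 0 ∨ 2 * B (c + w) v ≠ 0 := by
    by_cases h1 : ∃ v ∈ W, B v v ≠ 0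
    · obtain ⟨v, hv, h1⟩ := h1
      exact ⟨v, hv, fun _ _ => Or.inl h1⟩
    · have h0 : ∀ v ∈ W, B v v = 0 := fun v hv => by
        by_contra h3
        exact h1 ⟨v, hv, h3⟩
      obtain ⟨v, hv, h3⟩ := h
      refine ⟨v, hv, fun w hw => Or.inr fun h4 => h3 ?_⟩
      have h5 := h0 _ (W.add_mem hw hv)
      have h6 := h0 w hw
      have h7 := h0 v hv
      have h8 := hs v w
      have h9 := hs v c
      simp only [map_add, LinearMap.add_apply] at h4 h5 ⊢
      linear_combination hc + h4 - h5 + h6 + 2 * h7 + h9 + h8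
  have hW : #(univ.filter fun w : V => w ∈ W) = Fintype.card F ^ finrank F W := by
    rw [← Module.card_eq_pow_finrank (K := F) (V := W), Fintype.card_subtype]
  have key : #(Z ×ˢ (univ : Finset F)) ≤ 2 * #(univ.filter fun w : V => w ∈ W) := by
    refine card_le_mul_card_image_of_maps_to (f := fun p : V × F => p.1 - c - p.2 • v)
      (fun p hp => ?_) 2 fun w hw => ?_
    · exact mem_filter.2 ⟨mem_univ _,
        W.sub_mem (hZ _ (mem_product.1 hp).1).2 (W.smul_mem _ hv)⟩
    · refine le_trans ?_ (zeros_quad _ _ (B (c + w) (c + w) - j) (hq w (mem_filter.1 hw).2))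
      have e : ∀ p : V × F, p.1 - c - p.2 • v = w → p.1 = c + w + p.2 • v := fun p hp => by
        rw [← hp]
        abel
      refine card_le_card_of_injOn (fun p => p.2) (fun p hp => ?_) fun p hp p' hp' hh => ?_
      · obtain ⟨a1, a2⟩ := mem_filter.1 (mem_coe.1 hp)
        have a3 := (hZ _ (mem_product.1 a1).1).1
        rw [e p a2] at a3
        refine mem_coe.2 (mem_filter.2 ⟨mem_univ _, ?_⟩)
        have a4 := hs v (c + w)
        generalize c + w = u at a3 a4 ⊢
        simp only [map_add, map_smul, LinearMap.add_apply, LinearMap.smul_apply,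
          smul_eq_mul] at a3
        linear_combination a3 - p.2 * a4
      · have a2 := e p (mem_filter.1 (mem_coe.1 hp)).2
        have a3 := e p' (mem_filter.1 (mem_coe.1 hp')).2
        have hh' : p.2 = p'.2 := hh
        exact Prod.ext (by rw [a2, a3, hh']) hh'
  rwa [card_product, card_univ, hW, mul_comm] at key

end Pool.Agent.Lib.MP_c8b0a1_an.Four
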