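import Pool.Agent.Lib.MP_c8b0a1_an.Four.NoFlat
import Pool.Agent.Lib.MP_c8b0a1_an.Four.Zeros
import Pool.Agent.Lib.MP_c8b0a1_an.Four.Indep
import Pool.Agent.Lib.MP_c8b0a1_an.Four.Kst

/-! Right angles at a point of an admissible sphere. -/

namespace Pool.Agent.Lib.MP_c8b0a1_an.Four

open Finset Module

variable {F : Type} [Field F] [Fintype F] [DecidableEq F]
variable {V : Type} [AddCommGroup V] [Module F V] [Fintype V] [DecidableEq V]

/-- Rank `n + 1`: `zeros` with `noflat`, cancel `q`. Rank `≤ n`: `x ↦ x - c` injects `Z` into `W`,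
which has `q ^ finrank ≤ q ^ n` elements. -/
theorem flat (hF : ringChar F ≠ 2) {ψ : AddChar F ℂ} {j : F} {B : V →ₗ[F] V →ₗ[F] F} {n : ℕ}
    (hG : Good ψ j B (n + 1)) {c : V} (hc : B c c = j) (W : Submodule F V)
    (hW : finrank F W ≤ n + 1) (Z : Finset V) (hZ : ∀ x ∈ Z, B x x = j ∧ x - c ∈ W) :
    #Z ≤ 2 * Fintype.card F ^ n := by
  classical
  rcases hW.eq_or_lt with e | e
  · have h := zeros hF hG.symm hc W (noflat hF hG hc W e) Z hZ
    rw [e, pow_succ', mul_left_comm] at h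
    exact Nat.le_of_mul_le_mul_left h Fintype.card_pos
  · have h1 : #Z ≤ #(univ.filter fun x => x ∈ W) :=
      card_le_card_of_injOn (fun x => x - c) (fun x hx => by simpa using (hZ x hx).2)
        fun x _ y _ h => sub_left_injective h
    have h2 : Fintype.card W = Fintype.card F ^ finrank F W := Module.card_eq_pow_finrank
    rw [Fintype.card_subtype] at h2
    have h3 : Fintype.card F ^ finrank F W ≤ Fintype.card F ^ n :=
      Nat.pow_le_pow_right Fintype.card_pos (by omega)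
    omega

/-- `B` is nondegenerate by `hG.orth` (if `B ξ x = 0` for all `ξ` the sum is `card V ≠ 0`). Take the
orthogonal of the span of the `u i` (`LinearMap.BilinForm.finrank_orthogonal`,
`finrank_span_eq_card`). -/
theorem perp {ψ : AddChar F ℂ} {j : F} {B : V →ₗ[F] V →ₗ[F] F} {n : ℕ}
    (hG : Good ψ j B (n + 1)) (hV : finrank F V = 2 * n + 3) {u : Fin (n + 2) → V}
    (hu : LinearIndependent F u) :
    ∃ W : Submodule F V, finrank F W ≤ n + 1 ∧ ∀ x, (∀ i, B (u i) x = 0) → x ∈ W := by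
  have h1 : ∀ x, (∀ ξ, B ξ x = 0) → x = 0 := fun x hx => by
    by_contra h
    have h2 := hG.orth x
    simp [hx, h] at h2
  have h2 : LinearMap.BilinForm.Nondegenerate B :=
    ⟨fun x hx => h1 x fun ξ => hG.symm x ξ ▸ hx ξ, fun x hx => h1 x hx⟩
  refine ⟨LinearMap.BilinForm.orthogonal B (Submodule.span F (Set.range u)), ?_, fun x hx => ?_⟩
  · rw [LinearMap.BilinForm.finrank_orthogonal h2, finrank_span_eq_card hu, hV, Fintype.card_fin]
    omega
  · have h3 : Submodule.span F (Set.range u) ≤ LinearMap.ker (B.flip x) :=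
      Submodule.span_le.2 (Set.range_subset_iff.2 hx)
    exact fun y hy => h3 hy

/-- `kst` with `m = n + 1`, `Q = 2 * q ^ n`, `I u = LinearIndependent F fun i => u i - c`; `h1` is
`indep` with `flat`; `h2` is `perp` with `flat`, because for `a, b, c, a + b - c` on the sphere
`2 * B (a - c) (b - c) = 0`. -/
theorem inc (hF : ringChar F ≠ 2) {ψ : AddChar F ℂ} {j : F} {B : V →ₗ[F] V →ₗ[F] F} {n : ℕ}
    (hG : Good ψ j B (n + 1)) (hV : finrank F V = 2 * n + 3) {S : Finset V}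
    (hS : ∀ x ∈ S, B x x = j) {κ : ℝ} (hκ : 0 ≤ κ)
    (hQ : 2 * (Fintype.card F : ℝ) ^ n ≤ κ ^ (n + 2)) : ∀ c ∈ S, ∀ A ⊆ S, ∀ A' ⊆ S, ∀ α β : ℝ,
    0 ≤ α → 0 ≤ β → (#A : ℝ) ≤ α ^ (n + 2) → (#A' : ℝ) ≤ β ^ (n + 2) →
    (#{t ∈ A ×ˢ A' | t.1 + t.2 - c ∈ S} : ℝ) ≤
      κ * (α ^ (n + 1) * β ^ (n + 2) + α ^ (n + 2) * β ^ (n + 1)) := by
  intro c hc A hA A' hA' α β hα hβ h1 h2
  refine kst (fun a b => a + b - c ∈ S) A A' (n + 1) (2 * Fintype.card F ^ n)
    (fun u => LinearIndependent F fun i => u i - c) (fun D hD => ?_) (fun u hu Z hZ h3 h4 => ?_)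
    hα hβ hκ h1 h2 (by exact_mod_cast hQ)
  · exact indep D c (n + 1) _ (fun W hW Z hZ h => flat hF hG (hS c hc) W hW Z fun x hx =>
      ⟨hS x (hA (hD (hZ hx))), h x hx⟩) _ le_rfl
  · obtain ⟨W, hW, h5⟩ := perp hG hV hu
    refine flat hF hG (hS c hc) W hW Z fun x hx => ⟨hS x (hA' (hZ hx)), h5 _ fun i => ?_⟩
    have a1 := hS _ (h3 x hx i)
    have a2 := hS _ (hA (h4 i))
    have a3 := hS x (hA' (hZ hx))
    have a4 := hS c hc
    simp only [map_add, map_sub, LinearMap.add_apply, LinearMap.sub_apply] at a1 ⊢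
    rw [hG.symm x (u i), hG.symm c (u i), hG.symm x c] at a1
    refine mul_left_cancel₀ (Ring.two_ne_zero hF) ?_
    linear_combination a1 - a2 - a3 + a4

end Pool.Agent.Lib.MP_c8b0a1_an.Four
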