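import Mathlib

/-! Sorting the four points by height. -/

namespace Pool.Agent.Lib.MP_c8b0a1_an.Four

open Finset

/-- The sum over four points. -/
def symm_Q {G : Type} (S : Finset G) (f : G → G → G → G → ℝ) : ℝ :=
  ∑ a ∈ S, ∑ b ∈ S, ∑ c ∈ S, ∑ d ∈ S, f a b c d

theorem symm_s1 {G : Type} (S : Finset G) (f : G → G → G → G → ℝ) :
    symm_Q S (fun a b c d => f b a c d) = symm_Q S f := sum_comm

theorem symm_s2 {G : Type} (S : Finset G) (f : G → G → G → G → ℝ) :
    symm_Q S (fun a b c d => f a c b d) = symm_Q S f := sum_congr rfl fun _ _ => sum_comm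

theorem symm_s3 {G : Type} (S : Finset G) (f : G → G → G → G → ℝ) :
    symm_Q S (fun a b c d => f a b d c) = symm_Q S f :=
  sum_congr rfl fun _ _ => sum_congr rfl fun _ _ => sum_comm

theorem symm_le {G : Type} (S : Finset G) {f f1 f2 f3 f4 : G → G → G → G → ℝ}
    (h : ∀ a b c d, f a b c d ≤ f1 a b c d + f2 a b c d + f3 a b c d + f4 a b c d) :
    symm_Q S f ≤ symm_Q S f1 + symm_Q S f2 + symm_Q S f3 + symm_Q S f4 := by
  simp only [symm_Q, ← sum_add_distrib]
  exact sum_le_sum fun a _ => sum_le_sum fun b _ => sum_le_sum fun c _ => sum_le_sum fun d _ =>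
    h a b c d

theorem symm_ite {t : ℝ} (ht : 0 ≤ t) {p q r s : Prop} [Decidable p] [Decidable q] [Decidable r]
    [Decidable s] (h : p ∨ q ∨ r ∨ s) :
    t ≤ (if p then t else 0) + (if q then t else 0) + (if r then t else 0) +
      (if s then t else 0) := by
  split_ifs <;> first | linarith | tauto

theorem symm_red {G : Type} (S : Finset G) (y : G → ℝ) (F : G → G → G → G → ℝ)
    (h0 : ∀ a b c d, 0 ≤ F a b c d) (h1 : ∀ a b c d, F b a c d = F a b c d)
    (h2 : ∀ a b c d, F a c b d = F a b c d) (h3 : ∀ a b c d, F a b d c = F a b c d) :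
    symm_Q S F ≤ 16 * symm_Q S fun c a b d =>
      if (y a ≤ y c ∧ y b ≤ y c) ∧ y d ≤ y a ∧ y d ≤ y b then F a b c d else 0 := by
  set N : G → G → G → G → ℝ := fun a b c d =>
    if y a ≤ y c ∧ y b ≤ y c ∧ y d ≤ y c then F a b c d else 0 with hN
  set M : G → G → G → G → ℝ := fun a b c d =>
    if (y a ≤ y c ∧ y b ≤ y c) ∧ y d ≤ y a ∧ y d ≤ y b then F a b c d else 0 with hM
  have a1 : symm_Q S F ≤ symm_Q S N + symm_Q S (fun a b c d => N a b d c) +
      symm_Q S (fun a b c d => N a c b d) + symm_Q S (fun a b c d => N b c a d) := by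
    refine symm_le S fun a b c d => ?_
    simp only [hN]
    rw [h3 a b c d, h2 a b c d, h2 b a c d, h1 a b c d]
    refine symm_ite (h0 a b c d) ?_
    grind
  have a2 : symm_Q S N ≤ symm_Q S M + symm_Q S (fun a b c d => M a d c b) +
      symm_Q S (fun a b c d => M b d c a) + symm_Q S M := by
    refine symm_le S fun a b c d => ?_
    have e1 : ∀ a b, F a d c b = F a b c d := fun a b => by rw [h2 a c d b, h3 a c b d, h2]
    simp only [hN, hM]
    rw [e1 a b, e1 b a, h1 a b c d]
    by_cases hc : y a ≤ y c ∧ y b ≤ y c ∧ y d ≤ y c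
    · rw [if_pos hc]
      refine symm_ite (h0 a b c d) ?_
      grind
    · rw [if_neg hc]
      have := h0 a b c d
      positivity
  have b1 := symm_s3 S N
  have b2 := symm_s2 S N
  have b3 := (symm_s1 S fun a b c d => N a c b d).trans b2
  have c1 := ((symm_s2 S fun a b c d => M a d b c).trans
    (symm_s3 S fun a b c d => M a c b d)).trans (symm_s2 S M)
  have c2 := (symm_s1 S fun a b c d => M a d c b).trans c1
  have c3 := (symm_s1 S fun a b c d => M a c b d).trans (symm_s2 S M)
  change _ ≤ 16 * symm_Q S fun a b c d => M b c a d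
  linarith

/-- Write the left side as a sum over `x ∈ Fintype.piFinset fun _ : Fin 4 => S` with
`∑ i, x i = 0`. For each `x` some permutation `σ` makes `y ∘ x ∘ σ` monotone
(`Tuple.monotone_sort`), so the term is at most the sum over the 24 permutations of the term
restricted to monotone tuples, and each of these sums is the same (reindex `x ↦ x ∘ σ`). For a
monotone tuple `(d, a, b, c)`: `d = -(a + b + c) ∈ S`, `y d ≤ min (y a) (y b)`. Any other route
(first the largest, then the smallest, with `sum_comm`) is fine. -/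
theorem symm4 {G : Type} [AddCommGroup G] [DecidableEq G] (S : Finset G) (y : G → ℝ)
    (hy : ∀ x, 0 ≤ y x) (e : ℕ) :
    ∑ a ∈ S, ∑ b ∈ S, ∑ c ∈ S, ∑ d ∈ S,
      (if a + b + c + d = 0 then (y a * y b * y c * y d) ^ e else 0) ≤
    24 * ∑ c ∈ S, y c ^ e * ∑ a ∈ S, ∑ b ∈ S, (if -(a + b + c) ∈ S ∧ y a ≤ y c ∧ y b ≤ y c then
      (y a * y b * min (y a) (y b)) ^ e else 0) := by
  have p0 : ∀ a b c d, 0 ≤ (y a * y b * y c * y d) ^ e := fun a b c d =>
    pow_nonneg (mul_nonneg (mul_nonneg (mul_nonneg (hy a) (hy b)) (hy c)) (hy d)) e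
  have p1 : ∀ a b, 0 ≤ (y a * y b * min (y a) (y b)) ^ e := fun a b =>
    pow_nonneg (mul_nonneg (mul_nonneg (hy a) (hy b)) (le_min (hy a) (hy b))) e
  have h := symm_red S y
    (fun a b c d => if a + b + c + d = 0 then (y a * y b * y c * y d) ^ e else 0)
    (fun a b c d => by have := p0 a b c d; positivity)
    (fun a b c d => by rw [add_comm b a, mul_comm (y b)])
    (fun a b c d => by rw [add_right_comm a c, mul_right_comm (y a) (y c)])
    (fun a b c d => by rw [add_right_comm _ d, mul_right_comm _ (y d)])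
  have p2 : ∀ a b c, 0 ≤ y c ^ e * (if -(a + b + c) ∈ S ∧ y a ≤ y c ∧ y b ≤ y c then
      (y a * y b * min (y a) (y b)) ^ e else 0) := fun a b c =>
    mul_nonneg (pow_nonneg (hy c) e) (by have := p1 a b; positivity)
  refine h.trans (mul_le_mul (by norm_num) ?_ ?_ (by norm_num))
  · simp only [symm_Q, mul_sum]
    refine sum_le_sum fun c _ => sum_le_sum fun a _ => sum_le_sum fun b _ => ?_
    have z : ∀ d, d ≠ -(a + b + c) → (if (y a ≤ y c ∧ y b ≤ y c) ∧ y d ≤ y a ∧ y d ≤ y b then
        (if a + b + c + d = 0 then (y a * y b * y c * y d) ^ e else 0) else 0) = 0 := fun d hd => by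
      rw [if_neg (fun h0 : a + b + c + d = 0 => hd (eq_neg_of_add_eq_zero_right h0)), ite_self]
    by_cases hS : -(a + b + c) ∈ S
    · rw [sum_eq_single_of_mem _ hS fun d _ hd => z d hd]
      by_cases hc : (y a ≤ y c ∧ y b ≤ y c) ∧ y (-(a + b + c)) ≤ y a ∧ y (-(a + b + c)) ≤ y b
      · rw [if_pos hc, if_pos (add_neg_cancel _), if_pos ⟨hS, hc.1⟩, ← mul_pow]
        refine pow_le_pow_left₀
          (mul_nonneg (mul_nonneg (mul_nonneg (hy a) (hy b)) (hy c)) (hy _)) ?_ e
        have := mul_le_mul_of_nonneg_left (le_min hc.2.1 hc.2.2)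
          (mul_nonneg (mul_nonneg (hy a) (hy b)) (hy c))
        linarith
      · rw [if_neg hc]
        exact p2 a b c
    · rw [sum_eq_zero fun d hd => z d fun h0 => hS (h0 ▸ hd)]
      exact p2 a b c
  · refine sum_nonneg fun c _ => sum_nonneg fun a _ => sum_nonneg fun b _ =>
      sum_nonneg fun d _ => ?_
    have := p0 a b c d
    positivity

end Pool.Agent.Lib.MP_c8b0a1_an.Four
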