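import Pool.Agent.Lib.MP_c8b0a1_an.Four.Dyad
import Pool.Agent.Lib.MP_c8b0a1_an.Four.Symm

/-! The weighted energy bound at the endpoint. -/

namespace Pool.Agent.Lib.MP_c8b0a1_an.Four

open Finset

theorem lam_neg {G : Type} [AddCommGroup G] (S : Finset G) (hS : ∀ x ∈ S, -x ∈ S) (f : G → ℝ) :
    ∑ x ∈ S, f x = ∑ x ∈ S, f (-x) :=
  sum_equiv (Equiv.neg G) (fun x => ⟨hS x, fun h => by simpa using hS _ h⟩) fun x _ => by simp

theorem lam_one {G : Type} [AddCommGroup G] [DecidableEq G] (S : Finset G) (hS : ∀ x ∈ S, -x ∈ S)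
    (n : ℕ) {κ : ℝ} (hκ : 0 ≤ κ)
    (H : ∀ c ∈ S, ∀ A ⊆ S, ∀ A' ⊆ S, ∀ α β : ℝ, 0 ≤ α → 0 ≤ β → (#A : ℝ) ≤ α ^ (n + 2) →
      (#A' : ℝ) ≤ β ^ (n + 2) → (#{t ∈ A ×ˢ A' | t.1 + t.2 - c ∈ S} : ℝ) ≤
        κ * (α ^ (n + 1) * β ^ (n + 2) + α ^ (n + 2) * β ^ (n + 1)))
    (z : G → ℝ) (hz : ∀ x, 0 ≤ z x) (h1 : ∑ x ∈ S, z x ^ (4 * n + 8) ≤ 1) :
    ∑ a ∈ S, ∑ b ∈ S, ∑ c ∈ S, ∑ d ∈ S,
      (if a + b + c + d = 0 then (z a * z b * z c * z d) ^ (3 * n + 5) else 0) ≤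
      24 * (2 ^ (8 * n + 15) * κ) := by
  refine (symm4 S z hz _).trans (mul_le_mul_of_nonneg_left ?_ (by norm_num))
  refine le_trans (sum_le_sum (g := fun c => 2 ^ (8 * n + 15) * κ * z c ^ (4 * n + 8))
    fun c hc => ?_) ?_
  · rcases (hz c).eq_or_lt with e | e
    · rw [← e, zero_pow (by omega), zero_pow (by omega), zero_mul, mul_zero]
    · have h2 := dyad S (fun a b => -(a + b + c) ∈ S) n hκ e (fun A hA A' hA' α β hα hβ k1 k2 => by
        refine le_trans (le_of_eq ?_) (H _ (hS c hc) A hA A' hA' α β hα hβ k1 k2)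
        congr 2
        refine filter_congr fun t _ => ?_
        rw [sub_neg_eq_add]
        exact ⟨fun h => by simpa only [neg_neg] using hS _ h, hS _⟩) z hz h1
      refine (mul_le_mul_of_nonneg_left h2 (pow_nonneg (hz c) _)).trans (le_of_eq ?_)
      ring
  · rw [← mul_sum]
    exact mul_le_of_le_one_right (by positivity) h1

/-- Put `z x = max (y x) (y (-x)) / (2 * μ)`; `∑ x ∈ S, z x ^ (4 n + 8) ≤ 1` (`hS`, reindex by
negation). Replace `c, d` by `-c, -d`: the left side is at most `(2 μ) ^ (12 n + 20)` times the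
left side of `symm4` for `z`. For `c ∈ S` with `0 < z c` use `dyad` with `τ = z c` and
`R a b := -(a + b + c) ∈ S`, which is `a + b - (-c) ∈ S` by `hS`; then
`z c ^ (3 n + 5) * z c ^ (n + 3) = z c ^ (4 n + 8)`, and `24 ≤ 2 ^ 5`. -/
theorem lam {G : Type} [AddCommGroup G] [DecidableEq G] (S : Finset G) (hS : ∀ x ∈ S, -x ∈ S)
    (n : ℕ) {κ μ : ℝ} (hκ : 0 ≤ κ) (hμ : 0 < μ)
    (H : ∀ c ∈ S, ∀ A ⊆ S, ∀ A' ⊆ S, ∀ α β : ℝ, 0 ≤ α → 0 ≤ β → (#A : ℝ) ≤ α ^ (n + 2) →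
      (#A' : ℝ) ≤ β ^ (n + 2) → (#{t ∈ A ×ˢ A' | t.1 + t.2 - c ∈ S} : ℝ) ≤
        κ * (α ^ (n + 1) * β ^ (n + 2) + α ^ (n + 2) * β ^ (n + 1)))
    (y : G → ℝ) (hy : ∀ x, 0 ≤ y x) (h1 : ∑ x ∈ S, y x ^ (4 * n + 8) ≤ μ ^ (4 * n + 8)) :
    ∑ a ∈ S, ∑ b ∈ S, ∑ c ∈ S, ∑ d ∈ S, (if a + b = c + d then y a ^ (3 * n + 5) *
      y b ^ (3 * n + 5) * y c ^ (3 * n + 5) * y d ^ (3 * n + 5) else 0) ≤
      2 ^ (20 * n + 40) * κ * μ ^ (12 * n + 20) := by
  set z : G → ℝ := fun x => max (y x) (y (-x)) / (2 * μ) with hzd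
  have hm : 0 < 2 * μ := by positivity
  have hz : ∀ x, 0 ≤ z x := fun x => div_nonneg ((hy x).trans (le_max_left _ _)) hm.le
  have z0 : ∀ x, 2 * μ * z x = max (y x) (y (-x)) := fun x => mul_div_cancel₀ _ hm.ne'
  have z1 : ∀ x, y x ≤ 2 * μ * z x := fun x => z0 x ▸ le_max_left _ _
  have z2 : ∀ x, y (-x) ≤ 2 * μ * z x := fun x => z0 x ▸ le_max_right _ _
  have hz1 : ∑ x ∈ S, z x ^ (4 * n + 8) ≤ 1 := by
    refine le_of_mul_le_mul_left ?_ (pow_pos hm (4 * n + 8))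
    have k1 : ∀ x ∈ S, (2 * μ) ^ (4 * n + 8) * z x ^ (4 * n + 8) ≤
        y x ^ (4 * n + 8) + y (-x) ^ (4 * n + 8) := by
      intro x _
      rw [← mul_pow, z0]
      rcases max_choice (y x) (y (-x)) with e | e <;> rw [e]
      · exact le_add_of_nonneg_right (pow_nonneg (hy _) _)
      · exact le_add_of_nonneg_left (pow_nonneg (hy _) _)
    rw [mul_sum, mul_one]
    refine (sum_le_sum k1).trans ?_
    rw [sum_add_distrib, ← lam_neg S hS fun x => y x ^ (4 * n + 8), mul_pow]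
    have k2 : (2 : ℝ) ≤ 2 ^ (4 * n + 8) := le_self_pow₀ (by norm_num) (by omega)
    have k3 := mul_le_mul_of_nonneg_right k2 (pow_nonneg hμ.le (4 * n + 8))
    linarith
  have h2 := mul_le_mul_of_nonneg_left (lam_one S hS n hκ H z hz hz1)
    (pow_nonneg hm.le (12 * n + 20))
  refine le_trans ?_ (h2.trans ?_)
  · simp only [mul_sum]
    refine sum_le_sum fun a _ => sum_le_sum fun b _ => ?_
    rw [lam_neg S hS]
    refine sum_le_sum fun c _ => ?_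
    rw [lam_neg S hS]
    refine sum_le_sum fun d _ => ?_
    have k1 : a + b = -c + -d ↔ a + b + c + d = 0 := by
      rw [← neg_add, eq_neg_iff_add_eq_zero, add_assoc (a + b)]
    simp only [k1]
    split_ifs
    · rw [← mul_pow, ← mul_pow, ← mul_pow, show 12 * n + 20 = 4 * (3 * n + 5) by ring, pow_mul,
        ← mul_pow]
      have := hy a
      have := hy b
      have := hy (-c)
      have := hy (-d)
      have := hz a
      have := hz b
      have := hz c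
      refine pow_le_pow_left₀ (by positivity) ?_ _
      calc y a * y b * y (-c) * y (-d)
          ≤ 2 * μ * z a * (2 * μ * z b) * (2 * μ * z c) * (2 * μ * z d) := by
            gcongr
            exacts [z1 a, z1 b, z2 c, z2 d]
        _ = _ := by ring
    · rw [mul_zero]
  · have k1 : 0 ≤ 2 ^ (20 * n + 35) * κ * μ ^ (12 * n + 20) := by positivity
    have k2 : (2 * μ) ^ (12 * n + 20) * (24 * (2 ^ (8 * n + 15) * κ)) =
        24 * (2 ^ (20 * n + 35) * κ * μ ^ (12 * n + 20)) := by ring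
    have k3 : 2 ^ (20 * n + 40) * κ * μ ^ (12 * n + 20) =
        32 * (2 ^ (20 * n + 35) * κ * μ ^ (12 * n + 20)) := by ring
    rw [k2, k3]
    linarith

end Pool.Agent.Lib.MP_c8b0a1_an.Four
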