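import Pool.Agent.Lib.MP_c8b0a1_an.Four.Inc
import Pool.Agent.Lib.MP_c8b0a1_an.Four.Lam
import Pool.Agent.Lib.MP_c8b0a1_an.Four.Dual

/-! The sharp restriction bound from `L^(4/3)` for admissible spheres. -/

namespace Pool.Agent.Lib.MP_c8b0a1_an.Four

open Finset Module

lemma num {n : ℕ} {s P ω μ K : ℝ} (hμ : 0 < μ) (hω : 0 < ω) (hK : 1 ≤ K) (hP : 0 ≤ P)
    (hs : (ω ^ (n + 2)) ^ (2 * (n + 1)) ≤ 2 * s)
    (h : (μ ^ (4 * n + 8)) ^ 4 ≤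
      P ^ 4 * ((ω ^ (n + 2)) ^ (2 * (n + 1) + 1) * (K * (2 * ω ^ n) * μ ^ (12 * n + 20)))) :
    (1 / s * μ ^ (4 * n + 8)) ^ (n + 3) ≤ (4 * K * P) ^ (4 * n + 8) := by
  have hs0 : 0 < s := by
    have : 0 < (ω ^ (n + 2)) ^ (2 * (n + 1)) := by positivity
    linarith
  have h1 : μ ^ (4 * n + 12) ≤ P ^ 4 * (2 * K) * ω ^ ((2 * n + 2) * (n + 3)) := by
    refine le_of_mul_le_mul_right ?_ (pow_pos hμ (12 * n + 20))
    refine le_of_eq_of_le ?_ (h.trans_eq ?_) <;> ring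
  have h2 := pow_le_pow_left₀ (by positivity) h1 (n + 2)
  have h3 := pow_le_pow_left₀ (by positivity) hs (n + 3)
  have h4 : (2 * K) ^ (n + 2) * 2 ^ (n + 3) ≤ (4 * K) ^ (4 * n + 8) := by
    calc (2 * K) ^ (n + 2) * 2 ^ (n + 3) ≤ (4 * K) ^ (n + 2) * (4 * K) ^ (n + 3) := by
          gcongr <;> linarith
      _ = (4 * K) ^ (2 * n + 5) := by ring
      _ ≤ _ := pow_le_pow_right₀ (by linarith) (by omega)
  rw [one_div, inv_mul_eq_div, div_pow, div_le_iff₀ (by positivity)]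
  calc (μ ^ (4 * n + 8)) ^ (n + 3) = (μ ^ (4 * n + 12)) ^ (n + 2) := by ring
    _ ≤ _ := h2
    _ = P ^ (4 * n + 8) * (2 * K) ^ (n + 2) * ((ω ^ (n + 2)) ^ (2 * (n + 1))) ^ (n + 3) := by ring
    _ ≤ P ^ (4 * n + 8) * (2 * K) ^ (n + 2) * (2 * s) ^ (n + 3) := by gcongr
    _ = P ^ (4 * n + 8) * ((2 * K) ^ (n + 2) * 2 ^ (n + 3)) * s ^ (n + 3) := by ring
    _ ≤ P ^ (4 * n + 8) * (4 * K) ^ (4 * n + 8) * s ^ (n + 3) := by gcongr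
    _ = _ := by ring

variable {F : Type} [Field F] [Fintype F] [DecidableEq F]
variable {V : Type} [AddCommGroup V] [Module F V] [Fintype V] [DecidableEq V]

lemma card_sph {ψ : AddChar F ℂ} {j : F} {B : V →ₗ[F] V →ₗ[F] F} {n : ℕ}
    (hG : Good ψ j B (n + 1)) :
    (Fintype.card F : ℝ) ^ (2 * (n + 1)) ≤ 2 * (#{ξ | B ξ ξ = j} : ℝ) := by
  have := hG.kf 0
  simp only [map_zero, AddChar.map_zero_eq_one, sum_const, nsmul_eq_mul, mul_one, if_true,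
    phi_zero] at this
  have h2 : (#{ξ | B ξ ξ = j} : ℝ) =
      (Fintype.card F : ℝ) ^ (2 * (n + 1)) - (Fintype.card F : ℝ) ^ (n + 1) := by
    exact_mod_cast this
  have h4 : (2 : ℝ) ≤ Fintype.card F := by exact_mod_cast Fintype.one_lt_card
  have h3 : (2 : ℝ) ≤ (Fintype.card F : ℝ) ^ (n + 1) :=
    h4.trans (le_self_pow₀ (one_le_two.trans h4) (by omega))
  rw [h2, two_mul (n + 1), pow_add]
  nlinarith

theorem core (hF : ringChar F ≠ 2) {ψ : AddChar F ℂ} {j : F} {B : V →ₗ[F] V →ₗ[F] F} {n : ℕ}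
    (hG : Good ψ j B (n + 1)) (hV : finrank F V = 2 * n + 3) (f : V → ℂ) {r t : ℝ}
    (hr : r = ((n + 3 : ℕ) : ℝ)⁻¹ * (4 * n + 8 : ℕ))
    (ht : t = (n + 3 : ℕ) * ((4 * n + 8 : ℕ) : ℝ)⁻¹) :
    (1 / (#{ξ | B ξ ξ = j} : ℝ) * ∑ ξ with B ξ ξ = j, ‖∑ x, f x * ψ (-(B x ξ))‖ ^ r) ^ t ≤
      4 * 2 ^ (20 * n + 40) * (∑ x, ‖f x‖ ^ (4 / 3 : ℝ)) ^ (3 / 4 : ℝ) := by
  set S : Finset V := {ξ | B ξ ξ = j} with hS
  set y : V → ℝ := fun ξ => ‖∑ x, f x * ψ (-(B x ξ))‖ ^ ((n + 3 : ℕ) : ℝ)⁻¹ with hy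
  have hy0 : ∀ ξ, 0 ≤ y ξ := fun ξ => Real.rpow_nonneg (norm_nonneg _) _
  have hy1 : ∀ ξ, y ξ ^ (n + 3) = ‖∑ x, f x * ψ (-(B x ξ))‖ := fun ξ =>
    Real.rpow_inv_natCast_pow (norm_nonneg _) (by omega)
  have hy2 : ∀ ξ, ‖∑ x, f x * ψ (-(B x ξ))‖ ^ r = y ξ ^ (4 * n + 8) := fun ξ => by
    rw [hr, Real.rpow_mul (norm_nonneg _), Real.rpow_natCast]
  simp_rw [hy2]
  set P : ℝ := ∑ x, ‖f x‖ ^ (4 / 3 : ℝ) with hP
  have hP0 : 0 ≤ P := sum_nonneg fun _ _ => by positivity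
  have hP1 : (P ^ (3 / 4 : ℝ)) ^ 4 = P ^ 3 := by
    rw [← Real.rpow_natCast, ← Real.rpow_mul hP0, ← Real.rpow_natCast]
    norm_num
  have hM0 : 0 ≤ ∑ ξ ∈ S, y ξ ^ (4 * n + 8) := sum_nonneg fun ξ _ => pow_nonneg (hy0 ξ) _
  rcases hM0.eq_or_lt with hM | hM
  · rw [← hM, mul_zero, Real.zero_rpow (by rw [ht]; positivity)]
    positivity
  obtain ⟨μ, hμ, hμ1⟩ : ∃ μ : ℝ, 0 < μ ∧ μ ^ (4 * n + 8) = ∑ ξ ∈ S, y ξ ^ (4 * n + 8) :=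
    ⟨_, Real.rpow_pos_of_pos hM _, Real.rpow_inv_natCast_pow hM0 (by omega)⟩
  obtain ⟨ω, hω, hω1⟩ : ∃ ω : ℝ, 0 < ω ∧ ω ^ (n + 2) = Fintype.card F :=
    ⟨_, Real.rpow_pos_of_pos card_pos' _, Real.rpow_inv_natCast_pow card_pos'.le (by omega)⟩
  have hκ : (0 : ℝ) ≤ 2 * ω ^ n := by positivity
  have hQ : 2 * (Fintype.card F : ℝ) ^ n ≤ (2 * ω ^ n) ^ (n + 2) := by
    rw [← hω1, mul_pow, ← pow_mul, ← pow_mul, mul_comm n]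
    gcongr
    exact le_self_pow₀ one_le_two (by omega)
  have h1 := lam S (fun x hx => by simpa [hS] using hx) n hκ hμ
    (inc hF hG hV (fun x hx => (mem_filter.1 hx).2) hκ hQ) y hy0 hμ1.ge
  have h2 := dual (by positivity) hG.orth S f (fun ξ => y ξ ^ (3 * n + 5))
    fun ξ => pow_nonneg (hy0 ξ) _
  have h3 : ∀ ξ, y ξ ^ (3 * n + 5) * ‖∑ x, f x * ψ (-(B x ξ))‖ = y ξ ^ (4 * n + 8) := fun ξ => by
    rw [← hy1]
    ring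
  simp_rw [h3] at h2
  have h4 := card_sph hG
  rw [← hω1] at h4
  have h5 := num (P := P ^ (3 / 4 : ℝ)) (K := 2 ^ (20 * n + 40)) hμ hω (one_le_pow₀ one_le_two)
    (by positivity) h4 (by
      rw [hμ1, hP1, hω1]
      exact h2.trans (by gcongr))
  rw [hμ1] at h5
  have h6 : 0 ≤ 1 / (#S : ℝ) * ∑ ξ ∈ S, y ξ ^ (4 * n + 8) :=
    mul_nonneg (one_div_nonneg.2 (Nat.cast_nonneg _)) hM0
  rw [ht, Real.rpow_mul h6, Real.rpow_natCast]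
  have h7 : (0 : ℝ) ≤ 4 * 2 ^ (20 * n + 40) * P ^ (3 / 4 : ℝ) := by positivity
  exact (Real.rpow_le_rpow (pow_nonneg h6 _) h5 (inv_nonneg.2 (Nat.cast_nonneg _))).trans_eq
    (Real.pow_rpow_inv_natCast h7 (by omega))

theorem main (d : ℕ) (hd : 3 ≤ d) :
    ∃ C : ℝ, ∀ (F : Type) [Field F] [Fintype F] [DecidableEq F],
      ringChar F ≠ 2 → ∀ ψ : AddChar F ℂ, ψ ≠ 1 → ∀ j : F, j ≠ 0 →
      ((d % 4 = 1 ∧ quadraticChar F j = -1) ∨ (d % 4 = 3 ∧ quadraticChar F (-j) = -1)) →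
      ∀ f : (Fin d → F) → ℂ,
        ((1 / ((Finset.univ.filter (fun ξ : Fin d → F => ∑ i, ξ i ^ 2 = j)).card : ℝ)) *
          ∑ ξ ∈ Finset.univ.filter (fun ξ : Fin d → F => ∑ i, ξ i ^ 2 = j),
            ‖∑ x : Fin d → F, f x * ψ (-(∑ i, x i * ξ i))‖ ^ ((4 * d + 4 : ℝ) / (d + 3))) ^
          ((d + 3 : ℝ) / (4 * d + 4))
        ≤ C * (∑ x : Fin d → F, ‖f x‖ ^ (4 / 3 : ℝ)) ^ (3 / 4 : ℝ) := by
  obtain ⟨n, hn⟩ : ∃ n, d / 2 = n + 1 := ⟨d / 2 - 1, by omega⟩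
  refine ⟨4 * 2 ^ (20 * n + 40), fun F _ _ _ hF ψ hψ j hj h f => ?_⟩
  obtain ⟨h1, h2⟩ := admissible hF h
  rw [hn] at h1 h2
  subst h1
  have := core hF (good_dot hF hψ hj _ h2) (by simp; omega) f
    (r := (4 * (2 * (n + 1) + 1 : ℕ) + 4 : ℝ) / ((2 * (n + 1) + 1 : ℕ) + 3))
    (t := ((2 * (n + 1) + 1 : ℕ) + 3 : ℝ) / (4 * (2 * (n + 1) + 1 : ℕ) + 4))
    (by push_cast; field_simp; ring) (by push_cast; field_simp; ring)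
  simpa only [dotB_apply, sq] using this

end Pool.Agent.Lib.MP_c8b0a1_an.Four
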