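import Pool.Agent.Lib.MP_c8b0a1_an.Kernel

/-! An admissible sphere contains no flat of dimension `k`. -/

namespace Pool.Agent.Lib.MP_c8b0a1_an.Four

open Finset Module

variable {F : Type} [Field F] [Fintype F] [DecidableEq F]
variable {V : Type} [AddCommGroup V] [Module F V] [Fintype V] [DecidableEq V]

/-- Suppose not. From `w` and `-w`: `B w w = 0` and `B c w = 0` on `W` (`two_ne hF`). Sum `hG.kf w`
over `w : W` (`phi_zero`, `Module.card_eq_pow_finrank`): the right side is
`q^(2k) - q^k * q^k = 0`. The left side is the sum over `ξ` on the sphere of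
`∑ w : W, ψ (B ξ w)`, each term is `card W` or `0` (`AddChar.sum_eq_ite` for
`ψ.compAddMonoidHom`), and the term `ξ = c` is `card W > 0`. -/
theorem noflat (hF : ringChar F ≠ 2) {ψ : AddChar F ℂ} {j : F} {B : V →ₗ[F] V →ₗ[F] F} {k : ℕ}
    (hG : Good ψ j B k) {c : V} (hc : B c c = j) (W : Submodule F V) (hW : finrank F W = k) :
    ∃ w ∈ W, B (c + w) (c + w) ≠ j := by
  classical
  by_contra hne
  push Not at hne
  have h2 := two_ne hF
  have h0 : ∀ w : W, B w w = 0 ∧ B c w = 0 := fun w => by
    have a1 := hne w w.2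
    have a2 := hne (-w) (W.neg_mem w.2)
    simp only [map_add, map_neg, LinearMap.add_apply, LinearMap.neg_apply, hc,
      hG.symm (w : V) c] at a1 a2
    have a3 : 2 * B (w : V) w = 0 := by linear_combination a1 + a2
    have a4 := (mul_eq_zero.1 a3).resolve_left h2
    have a5 : 2 * B c w = 0 := by linear_combination a1 - a4
    exact ⟨a4, (mul_eq_zero.1 a5).resolve_left h2⟩
  have hcard : Fintype.card W = Fintype.card F ^ k := by
    rw [← hW]
    exact Module.card_eq_pow_finrank
  have hr : ∑ w : W, ∑ ξ with B ξ ξ = j, ψ (B ξ w) = 0 := by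
    have a1 : ∀ w : W, ∑ ξ with B ξ ξ = j, ψ (B ξ w)
        = (if w = 0 then (Fintype.card F : ℂ) ^ (2 * k) else 0) - (Fintype.card F : ℂ) ^ k := by
      intro w
      rw [hG.kf, (h0 w).1, phi_zero, mul_one]
      simp only [Submodule.coe_eq_zero]
    simp_rw [a1]
    rw [sum_sub_distrib, sum_ite_eq', sum_const, card_univ, hcard]
    simp only [mem_univ, if_true, nsmul_eq_mul]
    push_cast
    ring
  rw [sum_comm] at hr
  have hn : ∀ ξ : V, ∃ n : ℕ, ∑ w : W, ψ (B ξ w) = n := fun ξ => by
    have a1 := AddChar.sum_eq_ite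
      (ψ.compAddMonoidHom ((B ξ).comp W.subtype).toAddMonoidHom)
    split_ifs at a1
    · exact ⟨_, a1⟩
    · exact ⟨0, by rw [Nat.cast_zero]; exact a1⟩
  choose n hn using hn
  simp_rw [hn] at hr
  rw [← Nat.cast_sum, Nat.cast_eq_zero, sum_eq_zero_iff] at hr
  have a1 := hn c
  rw [hr c (by simp [hc])] at a1
  simp only [(h0 _).2, AddChar.map_zero_eq_one, sum_const, card_univ, nsmul_eq_mul, mul_one,
    Nat.cast_zero, Nat.cast_eq_zero] at a1
  exact Fintype.card_ne_zero a1

end Pool.Agent.Lib.MP_c8b0a1_an.Four
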